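import Pool.Agent.Lib.MP_21a058_co.Split.Core

/-! Sets of dangling edges which are kept together while structures are inserted. -/

set_option autoImplicit false

namespace Pool.Agent.Lib.MP_21a058_co.Split

/-- Some structure with `2K` dangling edges containing `P` forces `R` on the edges `P`. -/
def AP (K μ : ℕ) (P : Type) (R : (P → ℕ) → Prop) : Prop :=
  ∃ (D : Type) (_ : Fintype D) (f : P → D), Function.Injective f ∧ Fintype.card D = 2 * K ∧
    Ach K μ D (fun c => R (fun p => c (f p)))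

/-- `R` can be forced on `P` in addition to whatever is forced already. -/
def Comb (K μ : ℕ) (P : Type) (R : (P → ℕ) → Prop) : Prop :=
  ∀ R' : (P → ℕ) → Prop, AP K μ P R' → AP K μ P (fun c => R c ∧ R' c)

theorem AP.weak {K μ : ℕ} {P : Type} {A B : (P → ℕ) → Prop} (h : AP K μ P A)
    (hAB : ∀ c, A c → B c) : AP K μ P B := by
  obtain ⟨D, i, f, hf, hD, h1⟩ := h
  exact ⟨D, i, f, hf, hD, h1.weak fun c hc => hAB _ hc⟩

/-- Two injections into sets with the same number of elements differ by a bijection. -/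
theorem exists_equiv {P D D' : Type} [Fintype D] [Fintype D'] (f : P → D) (g : P → D')
    (hf : Function.Injective f) (hg : Function.Injective g)
    (h : Fintype.card D = Fintype.card D') : ∃ e : D ≃ D', ∀ p, e (f p) = g p := by
  classical
  let e0 : D ≃ D' := Fintype.equivOfCardEq h
  have hf' : Function.Injective (fun p => e0 (f p)) := e0.injective.comp hf
  let e1 : {x // x ∈ Set.range (fun p => e0 (f p))} ≃ {x // x ∈ Set.range g} :=
    (Equiv.ofInjective _ hf').symm.trans (Equiv.ofInjective g hg)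
  refine ⟨e0.trans e1.extendSubtype, fun p => ?_⟩
  have h1 : e1.extendSubtype (e0 (f p)) = e1 ⟨e0 (f p), ⟨p, rfl⟩⟩ :=
    e1.extendSubtype_apply_of_mem _ ⟨p, rfl⟩
  rw [Equiv.trans_apply, h1]
  have h2 : (Equiv.ofInjective _ hf').symm ⟨e0 (f p), ⟨p, rfl⟩⟩ = p :=
    (Equiv.ofInjective _ hf').symm_apply_eq.2 rfl
  show ((Equiv.ofInjective g hg) ((Equiv.ofInjective _ hf').symm ⟨e0 (f p), ⟨p, rfl⟩⟩) : D') = g p
  rw [h2]
  rfl

theorem AP.to {K μ : ℕ} {P : Type} {R : (P → ℕ) → Prop} (h : AP K μ P R) {D' : Type}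
    [Fintype D'] (g : P → D') (hg : Function.Injective g) (hD' : Fintype.card D' = 2 * K) :
    Ach K μ D' (fun c => R (fun p => c (g p))) := by
  obtain ⟨D, i, f, hf, hD, h1⟩ := h
  obtain ⟨e, he⟩ := exists_equiv f g hf hg (hD.trans hD'.symm)
  refine (h1.equiv e).weak fun c hc => ?_
  have h3 : (fun p => c (e (f p))) = fun p => c (g p) := by
    funext p
    rw [he]
  rw [← h3]
  exact hc

/-- Node rule for parts of the halves. -/
theorem AP.node {K μ : ℕ} {X Y N : Type} [Fintype X] [Fintype Y] [Fintype N]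
    (hX : Fintype.card X ≤ K) (hY : Fintype.card Y ≤ K) (hN : Fintype.card N ≤ K)
    {A : (X ⊕ N → ℕ) → Prop} {B : (Y ⊕ N → ℕ) → Prop}
    (hA : AP K μ (X ⊕ N) A) (hB : AP K μ (Y ⊕ N) B) :
    AP K μ (X ⊕ Y) (fun c => ∃ n : N → ℕ,
      A (Sum.elim (fun x => c (Sum.inl x)) n) ∧ B (Sum.elim (fun y => c (Sum.inr y)) n)) := by
  classical
  have inj : ∀ (U W U' W' : Type),
      Function.Injective (Sum.map (Sum.inl : U → U ⊕ U') (Sum.inl : W → W ⊕ W')) :=
    fun _ _ _ _ => Sum.map_injective.2 ⟨Sum.inl_injective, Sum.inl_injective⟩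
  let X' := X ⊕ Fin (K - Fintype.card X)
  let Y' := Y ⊕ Fin (K - Fintype.card Y)
  let N' := N ⊕ Fin (K - Fintype.card N)
  have cX : Fintype.card X' = K := by simp [X']; omega
  have cY : Fintype.card Y' = K := by simp [Y']; omega
  have cN : Fintype.card N' = K := by simp [N']; omega
  have h1 := hA.to (Sum.map (Sum.inl : X → X') (Sum.inl : N → N')) (inj _ _ _ _)
    (by rw [Fintype.card_sum, cX, cN]; omega)
  have h2 := hB.to (Sum.map (Sum.inl : Y → Y') (Sum.inl : N → N')) (inj _ _ _ _)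
    (by rw [Fintype.card_sum, cY, cN]; omega)
  refine ⟨X' ⊕ Y', inferInstance, Sum.map (Sum.inl : X → X') (Sum.inl : Y → Y'), inj _ _ _ _,
    by rw [Fintype.card_sum, cX, cY]; omega, ?_⟩
  refine (h1.node cN h2).weak ?_
  rintro c ⟨n, h3, h4⟩
  refine ⟨fun m => n (Sum.inl m), ?_, ?_⟩
  · refine cast (congrArg A ?_) h3
    funext x
    rcases x with x | x <;> rfl
  · refine cast (congrArg B ?_) h4
    funext x
    rcases x with x | x <;> rfl

theorem AP.true {K μ : ℕ} (P : Type) [Fintype P] (hP : Fintype.card P ≤ 2 * K) :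
    AP K μ P (fun _ => True) :=
  ⟨P ⊕ Fin (2 * K - Fintype.card P), inferInstance, Sum.inl, Sum.inl_injective,
    by simp; omega, Ach.base _ (by simp; omega)⟩

theorem AP.restrict {K μ : ℕ} {P P' : Type} [Fintype P'] {R : (P → ℕ) → Prop}
    (h : AP K μ P R) (g : P → P') (hg : Function.Injective g)
    (hP' : Fintype.card P' ≤ 2 * K) : AP K μ P' (fun c => R (fun p => c (g p))) := by
  refine ⟨P' ⊕ Fin (2 * K - Fintype.card P'), inferInstance, Sum.inl, Sum.inl_injective,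
    by simp; omega, ?_⟩
  exact h.to (fun p => Sum.inl (g p)) (Sum.inl_injective.comp hg) (by simp; omega)

/-- Exact node rule with the numbers of red edges. -/
theorem Ach.node2 {K μ : ℕ} {X Y N : Type} [Fintype X] [Fintype Y] [Fintype N] (hK : 1 ≤ K)
    (hX : Fintype.card X = K) (hY : Fintype.card Y = K) (hN : Fintype.card N = K)
    {A : (X ⊕ N → ℕ) → Prop} {B : (Y ⊕ N → ℕ) → Prop}
    (hA : Ach K μ (X ⊕ N) A) (hB : Ach K μ (Y ⊕ N) B) :
    Ach K μ (X ⊕ Y) (fun c => ∃ n : N → ℕ, (∀ d, c d ≤ 1) ∧ (∀ m, n m ≤ 1) ∧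
      (μ ≤ ∑ x, c (Sum.inl x) ∧ ∑ x, c (Sum.inl x) ≤ μ + 1) ∧
      (μ ≤ ∑ y, c (Sum.inr y) ∧ ∑ y, c (Sum.inr y) ≤ μ + 1) ∧
      (μ ≤ ∑ m, n m ∧ ∑ m, n m ≤ μ + 1) ∧
      ∑ x, c (Sum.inl x) + ∑ y, c (Sum.inr y) ≤ 2 * μ + 1 ∧
      ∑ x, c (Sum.inl x) + ∑ m, n m ≤ 2 * μ + 1 ∧
      ∑ y, c (Sum.inr y) + ∑ m, n m ≤ 2 * μ + 1 ∧
      A (Sum.elim (fun x => c (Sum.inl x)) n) ∧ B (Sum.elim (fun y => c (Sum.inr y)) n)) := by
  have h1 := hA.info hK (by rw [Fintype.card_sum, hX, hN]; omega)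
  have h2 := hB.info hK (by rw [Fintype.card_sum, hY, hN]; omega)
  have h3 := (h1.node hN h2).info hK (by rw [Fintype.card_sum, hX, hY]; omega)
  refine h3.weak ?_
  rintro c ⟨hc, hg, n, ⟨a1, a2, a3⟩, b1, b2, b3⟩
  have hn : ∀ m, n m ≤ 1 := fun m => a1 (Sum.inr m)
  unfold good at hg a2 b2
  simp only [Fintype.sum_sum_type, Sum.elim_inl, Sum.elim_inr] at hg a2 b2
  exact ⟨n, hc, hn, by omega, by omega, by omega, by omega, by omega, by omega, a3, b3⟩

/-- Every kept set of at most `K` edges has at most `μ + 1` red ones and misses at most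
`K - μ`. -/
theorem Comb.window {K μ : ℕ} (hK : 1 ≤ K) (P : Type) [Fintype P] (hP : Fintype.card P ≤ K) :
    Comb K μ P (fun c => ∑ p, c p ≤ μ + 1 ∧ Fintype.card P + μ ≤ ∑ p, c p + K) := by
  classical
  intro R' hR
  let X := P ⊕ Fin (K - Fintype.card P)
  have cX : Fintype.card X = K := by simp [X]; omega
  have h1 : Ach K μ (X ⊕ Fin K) (fun c => R' (fun p => c (Sum.inl (Sum.inl p)))) :=
    hR.to _ (Sum.inl_injective.comp Sum.inl_injective)
      (by rw [Fintype.card_sum, cX, Fintype.card_fin]; omega)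
  have h2 : Ach K μ (Fin K ⊕ Fin K) (fun _ => True) := Ach.base _ (by simp; omega)
  refine ⟨X ⊕ Fin K, inferInstance, fun p => Sum.inl (Sum.inl p),
    Sum.inl_injective.comp Sum.inl_injective,
    by rw [Fintype.card_sum, cX, Fintype.card_fin]; omega, ?_⟩
  refine (h1.node2 hK cX (by simp) (by simp) h2).weak ?_
  rintro c ⟨n, hc, -, hX, -, -, -, -, -, h5, -⟩
  have h6 : ∑ x : X, c (Sum.inl x) = ∑ p, c (Sum.inl (Sum.inl p)) +
      ∑ q : Fin (K - Fintype.card P), c (Sum.inl (Sum.inr q)) := Fintype.sum_sum_type _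
  have h7 : ∑ q : Fin (K - Fintype.card P), c (Sum.inl (Sum.inr q)) ≤ K - Fintype.card P := by
    refine (Finset.sum_le_sum fun q _ => hc _).trans ?_
    simp
  refine ⟨⟨?_, ?_⟩, h5⟩
  · show ∑ p, c (Sum.inl (Sum.inl p)) ≤ μ + 1
    omega
  · show Fintype.card P + μ ≤ ∑ p, c (Sum.inl (Sum.inl p)) + K
    omega

/-- `p` red edges out of `m` kept ones can be refuted. -/
def W (K μ m p : ℕ) : Prop :=
  ∀ (P : Type) [Fintype P], Fintype.card P = m → Comb K μ P (fun c => ∑ x, c x ≠ p)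

/-- All refutable numbers can be refuted together. -/
theorem comb_all (K μ : ℕ) (P : Type) [Fintype P] :
    Comb K μ P (fun c => ¬ W K μ (Fintype.card P) (∑ x, c x)) := by
  classical
  have key : ∀ n : ℕ, Comb K μ P (fun c => ∑ x, c x < n → ¬ W K μ (Fintype.card P) (∑ x, c x)) := by
    intro n
    induction n with
    | zero => exact fun R' h => h.weak fun c hc => ⟨fun h0 => absurd h0 (Nat.not_lt_zero _), hc⟩
    | succ n ih =>
      intro R' h
      have h1 := ih R' h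
      by_cases hw : W K μ (Fintype.card P) n
      · refine (hw P rfl _ h1).weak ?_
        rintro c ⟨h2, h3, h4⟩
        refine ⟨fun h5 => ?_, h4⟩
        exact h3 (by omega)
      · refine h1.weak ?_
        rintro c ⟨h3, h4⟩
        refine ⟨fun h5 => ?_, h4⟩
        rcases Nat.lt_or_ge (∑ x, c x) n with h6 | h6
        · exact h3 h6
        · have h7 : ∑ x, c x = n := by omega
          rw [h7]
          exact hw
  intro R' h
  obtain ⟨D, i, f, hf, hD, h1⟩ := h
  have hfin := key (Fintype.card P + 1) R' ⟨D, i, f, hf, hD, h1⟩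
  obtain ⟨D, i, f, hf, hD, h1⟩ := hfin
  refine ⟨D, i, f, hf, hD, ?_⟩
  rcases Nat.eq_zero_or_pos K with h0 | h0
  · subst h0
    have hP : IsEmpty P := by
      rw [← Fintype.card_eq_zero_iff]
      have := Fintype.card_le_of_injective f hf
      omega
    refine h1.weak ?_
    rintro c ⟨h3, h4⟩
    exact ⟨h3 (by simp), h4⟩
  · refine (h1.info h0 hD).weak ?_
    rintro c ⟨hc, -, h3, h4⟩
    refine ⟨h3 ?_, h4⟩
    have : ∑ x, c (f x) ≤ ∑ _x : P, 1 := Finset.sum_le_sum fun x _ => hc _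
    simp at this
    show ∑ x, c (f x) < _
    omega

theorem AP.le {K μ : ℕ} {P : Type} {R : (P → ℕ) → Prop} (hK : 1 ≤ K) (h : AP K μ P R) :
    AP K μ P (fun c => (∀ p, c p ≤ 1) ∧ R c) := by
  obtain ⟨D, i, f, hf, hD, h1⟩ := h
  exact ⟨D, i, f, hf, hD, (h1.info hK hD).weak fun c hc => ⟨fun p => hc.1 _, hc.2.2⟩⟩

theorem AP.sub {K μ : ℕ} {P P' : Type} {R : (P → ℕ) → Prop} (g : P → P')
    (hg : Function.Injective g) (h : AP K μ P' (fun c => R (fun p => c (g p)))) :
    AP K μ P R := by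
  obtain ⟨D, i, f, hf, hD, h1⟩ := h
  exact ⟨D, i, fun p => f (g p), hf.comp hg, hD, h1⟩

end Pool.Agent.Lib.MP_21a058_co.Split
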