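import Pool.Agent.Lib.MP_21a058_co.Basic

/-! Graphs obtained by splitting vertices of degree `2K` again and again, seen through the
colourings of their dangling edges. -/

set_option autoImplicit false

namespace Pool.Agent.Lib.MP_21a058_co.Split

open Pool.Agent.Lib.MP_21a058_co

/-- Weight of the edges leaving the vertex set `S`: dangling edges `D`, inner edges `E`. -/
def ct {V D E : Type} [Fintype D] [Fintype E] (att : D → V) (a b : E → V) (S : V → Bool)
    (w : D → ℕ) (w' : E → ℕ) : ℕ :=
  (∑ d, (S (att d)).toNat * w d) + ∑ e, (S (a e) ^^ S (b e)).toNat * w' e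

/-- The admissible numbers of red edges of a cut with `2K` edges. -/
def good (μ t : ℕ) : Prop := 2 * μ ≤ t ∧ t ≤ 2 * μ + 1

/-- Some structure with dangling edges `D` forces `A` on every good colouring. -/
def Ach (K μ : ℕ) (D : Type) [Fintype D] (A : (D → ℕ) → Prop) : Prop :=
  ∃ (V E : Type) (_ : Fintype V) (_ : Fintype E) (att : D → V) (a b : E → V),
    (∀ e, a e ≠ b e) ∧
    (∀ S : V → Bool, (∃ v, S v = true) → 2 * K ≤ ct att a b S (fun _ => 1) (fun _ => 1)) ∧
    ∀ (c : D → ℕ) (c' : E → ℕ), (∀ d, c d ≤ 1) → (∀ e, c' e ≤ 1) →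
      (∀ S : V → Bool, (∃ v, S v = true) → ct att a b S (fun _ => 1) (fun _ => 1) = 2 * K →
        good μ (ct att a b S c c')) → A c

theorem Ach.weak {K μ : ℕ} {D : Type} [Fintype D] {A B : (D → ℕ) → Prop} (h : Ach K μ D A)
    (hAB : ∀ c, A c → B c) : Ach K μ D B := by
  obtain ⟨V, E, i1, i2, att, a, b, h1, h2, h3⟩ := h
  exact ⟨V, E, i1, i2, att, a, b, h1, h2, fun c c' hc hc' hg => hAB c (h3 c c' hc hc' hg)⟩

theorem Ach.base {K μ : ℕ} (D : Type) [Fintype D] (hD : Fintype.card D = 2 * K) :
    Ach K μ D (fun _ => True) := by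
  refine ⟨Unit, Empty, inferInstance, inferInstance, fun _ => (), Empty.elim, Empty.elim,
    fun e => e.elim, ?_, fun _ _ _ _ _ => trivial⟩
  rintro S ⟨⟨⟩, hv⟩
  simp [ct, hv, hD]

theorem Ach.info {K μ : ℕ} {D : Type} [Fintype D] {A : (D → ℕ) → Prop} (hK : 1 ≤ K)
    (hD : Fintype.card D = 2 * K) (h : Ach K μ D A) :
    Ach K μ D (fun c => (∀ d, c d ≤ 1) ∧ good μ (∑ d, c d) ∧ A c) := by
  obtain ⟨V, E, i1, i2, att, a, b, h1, h2, h3⟩ := h
  refine ⟨V, E, i1, i2, att, a, b, h1, h2, fun c c' hc hc' hg => ⟨hc, ?_, h3 c c' hc hc' hg⟩⟩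
  have hne : Nonempty D := by
    rw [← Fintype.card_pos_iff]; omega
  obtain ⟨d⟩ := hne
  have := hg (fun _ => true) ⟨att d, rfl⟩ (by simp [ct, hD])
  simpa [ct] using this

theorem Ach.equiv {K μ : ℕ} {D D' : Type} [Fintype D] [Fintype D'] {A : (D → ℕ) → Prop}
    (h : Ach K μ D A) (e : D ≃ D') : Ach K μ D' (fun c => A (fun d => c (e d))) := by
  obtain ⟨V, E, i1, i2, att, a, b, h1, h2, h3⟩ := h
  have key : ∀ (S : V → Bool) (w : D' → ℕ) (w' : E → ℕ),
      ct (fun d' => att (e.symm d')) a b S w w' = ct att a b S (fun d => w (e d)) w' := by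
    intro S w w'
    unfold ct
    congr 1
    rw [← Equiv.sum_comp e]
    simp
  refine ⟨V, E, i1, i2, fun d' => att (e.symm d'), a, b, h1, ?_, ?_⟩
  · intro S hS
    rw [key]
    exact h2 S hS
  · intro c c' hc hc' hg
    refine h3 _ c' (fun d => hc _) hc' ?_
    intro S hS h4
    have := hg S hS (by rw [key]; exact h4)
    rwa [key] at this

theorem Ach.bij {K μ : ℕ} {D D' : Type} [Fintype D] [Fintype D'] {A : (D → ℕ) → Prop}
    (h : Ach K μ D A) (g : D → D') (hg : Function.Injective g)
    (hc : Fintype.card D = Fintype.card D') : Ach K μ D' (fun c => A (fun d => c (g d))) := by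
  have hb : Function.Bijective g := (Fintype.bijective_iff_injective_and_card g).2 ⟨hg, hc⟩
  exact h.equiv (Equiv.ofBijective g hb)

theorem Ach.node {K μ : ℕ} {X Y N : Type} [Fintype X] [Fintype Y] [Fintype N]
    (hN : Fintype.card N = K) {A : (X ⊕ N → ℕ) → Prop} {B : (Y ⊕ N → ℕ) → Prop}
    (hA : Ach K μ (X ⊕ N) A) (hB : Ach K μ (Y ⊕ N) B) :
    Ach K μ (X ⊕ Y) (fun c => ∃ n : N → ℕ,
      A (Sum.elim (fun x => c (Sum.inl x)) n) ∧ B (Sum.elim (fun y => c (Sum.inr y)) n)) := by
  classical
  obtain ⟨V1, E1, i1, i2, att1, a1, b1, p1, p2, p3⟩ := hA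
  obtain ⟨V2, E2, j1, j2, att2, a2, b2, q1, q2, q3⟩ := hB
  let att : X ⊕ Y → V1 ⊕ V2 := Sum.elim (fun x => Sum.inl (att1 (Sum.inl x)))
    (fun y => Sum.inr (att2 (Sum.inl y)))
  let a : E1 ⊕ (E2 ⊕ N) → V1 ⊕ V2 := Sum.elim (fun e => Sum.inl (a1 e))
    (Sum.elim (fun e => Sum.inr (a2 e)) (fun n => Sum.inl (att1 (Sum.inr n))))
  let b : E1 ⊕ (E2 ⊕ N) → V1 ⊕ V2 := Sum.elim (fun e => Sum.inl (b1 e))
    (Sum.elim (fun e => Sum.inr (b2 e)) (fun n => Sum.inr (att2 (Sum.inr n))))
  have k1 : ∀ (S1 : V1 → Bool) (w : X ⊕ Y → ℕ) (w' : E1 ⊕ (E2 ⊕ N) → ℕ),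
      ct att a b (Sum.elim S1 (fun _ => false)) w w' =
        ct att1 a1 b1 S1 (Sum.elim (fun x => w (Sum.inl x)) (fun n => w' (Sum.inr (Sum.inr n))))
          (fun e => w' (Sum.inl e)) := by
    intro S1 w w'
    simp only [ct, att, a, b, Fintype.sum_sum_type, Sum.elim_inl, Sum.elim_inr,
      Bool.toNat_false, zero_mul, Finset.sum_const_zero, Bool.xor_false]
    omega
  have k2 : ∀ (S2 : V2 → Bool) (w : X ⊕ Y → ℕ) (w' : E1 ⊕ (E2 ⊕ N) → ℕ),
      ct att a b (Sum.elim (fun _ => false) S2) w w' =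
        ct att2 a2 b2 S2 (Sum.elim (fun x => w (Sum.inr x)) (fun n => w' (Sum.inr (Sum.inr n))))
          (fun e => w' (Sum.inr (Sum.inl e))) := by
    intro S2 w w'
    simp only [ct, att, a, b, Fintype.sum_sum_type, Sum.elim_inl, Sum.elim_inr,
      Bool.toNat_false, zero_mul, Finset.sum_const_zero, Bool.xor_false, Bool.false_xor]
    omega
  refine ⟨V1 ⊕ V2, E1 ⊕ (E2 ⊕ N), inferInstance, inferInstance, att, a, b, ?_, ?_, ?_⟩
  · rintro (e | e | n)
    · simpa [a, b] using p1 e
    · simpa [a, b] using q1 e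
    · simp [a, b]
  · intro S hS
    by_cases h1 : ∃ v, S (Sum.inl v) = true
    · by_cases h2 : ∃ v, S (Sum.inr v) = true
      · have e1 := p2 (fun v => S (Sum.inl v)) h1
        have e2 := q2 (fun v => S (Sum.inr v)) h2
        have e3 : (∑ n, (S (Sum.inl (att1 (Sum.inr n)))).toNat * 1) +
            (∑ n, (S (Sum.inr (att2 (Sum.inr n)))).toNat * 1) ≤
            (∑ n : N, (S (Sum.inl (att1 (Sum.inr n))) ^^ S (Sum.inr (att2 (Sum.inr n)))).toNat
              * 1) + 2 * K := by
          have e4 : 2 * K = ∑ _n : N, 2 := by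
            rw [Finset.sum_const, Finset.card_univ, hN, smul_eq_mul, mul_comm]
          rw [e4, ← Finset.sum_add_distrib, ← Finset.sum_add_distrib]
          refine Finset.sum_le_sum fun n _ => ?_
          generalize S (Sum.inl (att1 (Sum.inr n))) = u1
          generalize S (Sum.inr (att2 (Sum.inr n))) = u2
          cases u1 <;> cases u2 <;> simp
        simp only [ct, att, a, b, Fintype.sum_sum_type, Sum.elim_inl, Sum.elim_inr] at e1 e2 ⊢
        omega
      · have hS2 : S = Sum.elim (fun v => S (Sum.inl v)) (fun _ => false) := by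
          funext v
          rcases v with v | v
          · rfl
          · simp only [Sum.elim_inr]
            by_contra h3
            exact h2 ⟨v, by simpa using h3⟩
        rw [hS2, k1]
        refine le_of_le_of_eq (p2 _ h1) ?_
        congr 1
        funext x
        rcases x with x | x <;> rfl
    · have hS1 : S = Sum.elim (fun _ => false) (fun v => S (Sum.inr v)) := by
        funext v
        rcases v with v | v
        · simp only [Sum.elim_inl]
          by_contra h3
          exact h1 ⟨v, by simpa using h3⟩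
        · rfl
      have h2 : ∃ v, S (Sum.inr v) = true := by
        obtain ⟨v, hv⟩ := hS
        rcases v with v | v
        · exact absurd ⟨v, hv⟩ h1
        · exact ⟨v, hv⟩
      rw [hS1, k2]
      refine le_of_le_of_eq (q2 _ h2) ?_
      congr 1
      funext x
      rcases x with x | x <;> rfl
  · intro c c' hc hc' hg
    refine ⟨fun n => c' (Sum.inr (Sum.inr n)), ?_, ?_⟩
    · refine p3 _ (fun e => c' (Sum.inl e)) ?_ (fun e => hc' _) ?_
      · rintro (x | n)
        · exact hc _
        · exact hc' _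
      · intro S1 hS1 h4
        have h5 := hg (Sum.elim S1 (fun _ => false)) (by
          obtain ⟨v, hv⟩ := hS1
          exact ⟨Sum.inl v, hv⟩) (by
          rw [k1, ← h4]
          congr 1
          funext x
          rcases x with x | x <;> rfl)
        rwa [k1] at h5
    · refine q3 _ (fun e => c' (Sum.inr (Sum.inl e))) ?_ (fun e => hc' _) ?_
      · rintro (x | n)
        · exact hc _
        · exact hc' _
      · intro S2 hS2 h4
        have h5 := hg (Sum.elim (fun _ => false) S2) (by
          obtain ⟨v, hv⟩ := hS2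
          exact ⟨Sum.inr v, hv⟩) (by
          rw [k2, ← h4]
          congr 1
          funext x
          rcases x with x | x <;> rfl)
        rwa [k2] at h5

theorem ite_one (x y : Bool) (n : ℕ) [Decidable (x ≠ y)] :
    (if x ≠ y then n else 0) = (y != x).toNat * n := by
  cases x <;> cases y <;> simp

theorem ite_two (x y z : Bool) (n : ℕ) [Decidable (x ≠ y)] :
    (if x ≠ y then n else 0) = ((x != z) ^^ (y != z)).toNat * n := by
  cases x <;> cases y <;> cases z <;> simp

/-- If `2K ↦ ks` and the classes in `I` need `2μ`, the others `2K - 2μ - 1`, then a forced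
property is satisfiable. -/
theorem Ach.final {K μ r : ℕ} {ks : Fin r → ℕ} (h : Arrow (2 * K) ks) (I : Finset (Fin r))
    (hI : ∑ i ∈ I, ks i = 2 * μ) (hIc : 2 * K ≤ ∑ i ∈ Iᶜ, ks i + 2 * μ + 1)
    {D : Type} [Fintype D] {A : (D → ℕ) → Prop} (hA : Ach K μ D A) : ∃ c, A c := by
  classical
  obtain ⟨V, E, i1, i2, att, a, b, h1, h2, h3⟩ := hA
  let A' : D ⊕ E → Option V := Sum.elim (fun _ => none) (fun e => some (a e))
  let B' : D ⊕ E → Option V := Sum.elim (fun d => some (att d)) (fun e => some (b e))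
  have key : ∀ (g : D ⊕ E → ℕ) (S : Option V → Bool), cutw A' B' g S =
      ct att a b (fun v => S (some v) != S none) (fun d => g (Sum.inl d))
        (fun e => g (Sum.inr e)) := by
    intro g S
    simp only [cutw, ct, A', B', Fintype.sum_sum_type, Sum.elim_inl, Sum.elim_inr]
    congr 1
    · exact Finset.sum_congr rfl fun d _ => ite_one _ _ _
    · exact Finset.sum_congr rfl fun e _ => ite_two _ _ _ _
  have hNC : ∀ S : Option V → Bool, NC S → ∃ v, (S (some v) != S none) = true := by
    rintro S ⟨u, v, huv⟩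
    by_contra hcon
    push Not at hcon
    have h5 : ∀ x, S x = S none := by
      intro x
      rcases x with _ | x
      · rfl
      · have := hcon x
        simpa using this
    exact huv ((h5 u).trans (h5 v).symm)
  obtain ⟨x, hx, hcut⟩ := arrow_cut h I (Option V) (D ⊕ E) A' B' (by
    rintro (d | e)
    · simp [A', B']
    · simpa [A', B'] using h1 e) (by
    intro S hS
    rw [key]
    exact h2 _ (hNC S hS))
  refine ⟨fun d => x (Sum.inl d), h3 _ (fun e => x (Sum.inr e)) (fun d => hx _)
    (fun e => hx _) ?_⟩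
  intro S hS h4
  let S' : Option V → Bool := fun o => o.elim false S
  have hS' : (fun v => S' (some v) != S' none) = S := by
    funext v
    simp [S']
  have hnc : NC S' := by
    obtain ⟨v, hv⟩ := hS
    exact ⟨some v, none, by simp [S', hv]⟩
  obtain ⟨g1, g2⟩ := hcut S' hnc
  have k0 := key (fun _ => 1) S'
  have k1 := key x S'
  rw [hS'] at k0 k1
  have k3 : cutw A' B' x S' + cutw A' B' (fun e => 1 - x e) S' = cutw A' B' (fun _ => 1) S' := by
    unfold cutw
    rw [← Finset.sum_add_distrib]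
    refine Finset.sum_congr rfl fun e _ => ?_
    have h6 : x e + (1 - x e) = 1 := by
      have := hx e
      omega
    by_cases h7 : S' (A' e) ≠ S' (B' e)
    · rw [if_pos h7, if_pos h7, if_pos h7]
      exact h6
    · rw [if_neg h7, if_neg h7, if_neg h7]
  unfold good
  rw [← k1]
  rw [hI] at g1
  have k4 : cutw A' B' (fun _ => 1) S' = 2 * K := k0.trans h4
  omega

end Pool.Agent.Lib.MP_21a058_co.Split
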