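import Pool.Agent.Lib.MP_21a058_co.Split.Exc
import Pool.Agent.Lib.MP_21a058_co.SlackTwoL
import Pool.Agent.Lib.MP_21a058_co.OnePart

/-! `f(k_1, …, k_r) ≥ k_1 + … + k_r + 2` if the sum is odd and two parts are positive. -/

set_option autoImplicit false

namespace Pool.Agent.Lib.MP_21a058_co.Split

open Pool.Agent.Lib.MP_21a058_co

theorem all_refuted {K μ : ℕ} (hμ : 1 ≤ μ) (hK : μ + 2 ≤ K) : W K μ 0 0 := by
  rcases Nat.lt_trichotomy K (2 * μ + 1) with h | h | h
  · refine blue_pair hK ?_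
    by_contra hcon
    have h1 := dd_le (by omega) 2 0 (by omega) (by omega) (by omega) hcon
    have h2 : dd K μ 2 0 = -(4 * μ + 2) := by
      unfold dd
      push_cast
      ring
    omega
  · exact red_pair (by omega) hμ (exc hμ h)
  · refine red_pair (by omega) hμ ?_
    by_contra hcon
    have h1 := dd_le (by omega) 2 2 (by omega) (by omega) (by omega) hcon
    have h2 : dd K μ 2 2 = 4 * K - (4 * μ + 2) := by
      unfold dd
      push_cast
      ring
    omega

/-- `2K ↦ (…)` fails if the parts can be united to `2μ ≥ 2` and `2K - 2μ - 1 ≥ 3`. -/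
theorem no_arrow {K μ r : ℕ} {ks : Fin r → ℕ} (hμ : 1 ≤ μ) (hK : μ + 2 ≤ K)
    (I : Finset (Fin r)) (hI : ∑ i ∈ I, ks i = 2 * μ)
    (hIc : 2 * K ≤ ∑ i ∈ Iᶜ, ks i + 2 * μ + 1) : ¬ Arrow (2 * K) ks := by
  intro h
  have h1 := all_refuted hμ hK Empty (by simp) (fun _ => True) (AP.true Empty (by simp))
  obtain ⟨D, iD, f, -, -, h2⟩ := h1
  obtain ⟨c, h3, -⟩ := Ach.final h I hI hIc h2
  exact h3 (by simp)

theorem odd_plus_two (k r : ℕ) (ks : Fin r → ℕ) (i j : Fin r) (hij : i ≠ j) (hi : 1 ≤ ks i)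
    (hj : 1 ≤ ks j) (hodd : Odd (∑ l, ks l)) (h : Arrow k ks) : ∑ l, ks l + 2 ≤ k := by
  classical
  by_cases h1 : ∃ l, ks l = 1
  · obtain ⟨l, hl⟩ := h1
    refine OnePart.one_part k r ks l hl ?_ h
    by_cases hli : l = i
    · exact ⟨j, fun hjl => hij (hli.symm.trans hjl.symm), hj⟩
    · exact ⟨i, fun hil => hli hil.symm, hi⟩
  push Not at h1
  by_contra hcon
  push Not at hcon
  -- an odd part
  have h2 : ∃ l, ks l % 2 = 1 := by
    by_contra h3
    push Not at h3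
    have h4 : 2 ∣ ∑ l, ks l := Finset.dvd_sum fun l _ => by
      have := h3 l
      omega
    obtain ⟨m, hm⟩ := hodd
    omega
  obtain ⟨l, hl⟩ := h2
  have hl3 : 3 ≤ ks l := by
    have := h1 l
    omega
  -- another positive part
  have h5 : ∃ x, x ≠ l ∧ 1 ≤ ks x := by
    by_cases hli : l = i
    · exact ⟨j, fun hjl => hij (hli.symm.trans hjl.symm), hj⟩
    · exact ⟨i, fun hil => hli hil.symm, hi⟩
  obtain ⟨x, hx, hx1⟩ := h5
  have hx2 : 2 ≤ ks x := by
    have := h1 x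
    omega
  have h6 : ks l + ∑ y ∈ {l}ᶜ, ks y = ∑ y, ks y := by
    have := Finset.sum_add_sum_compl ({l} : Finset (Fin r)) ks
    rwa [Finset.sum_singleton] at this
  have h7 : ks x ≤ ∑ y ∈ ({l}ᶜ : Finset (Fin r)), ks y := by
    refine Finset.single_le_sum (f := ks) (fun _ _ => Nat.zero_le _) ?_
    rw [Finset.mem_compl, Finset.mem_singleton]
    exact hx
  obtain ⟨m, hm⟩ := hodd
  have h8 : Arrow (2 * (m + 1)) ks := arrow_mono (by omega) h
  refine no_arrow (K := m + 1) (μ := (∑ y ∈ ({l}ᶜ : Finset (Fin r)), ks y) / 2) (by omega)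
    (by omega) {l}ᶜ (by omega) ?_ h8
  rw [compl_compl, Finset.sum_singleton]
  omega

end Pool.Agent.Lib.MP_21a058_co.Split
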