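import Pool.Agent.Lib.MP_21a058_co.Split.Moves

/-! The case `K = 2μ + 1`: a red pair is refuted by a chain of five vertices. -/

set_option autoImplicit false

namespace Pool.Agent.Lib.MP_21a058_co.Split

open Sum

theorem sum_unit (f : Unit → ℕ) : ∑ x, f x = f () := by
  simp

theorem window_block {K μ : ℕ} (hμ : 1 ≤ μ) (hK : K = 2 * μ + 1) :
    AP K μ (Fin (K - 2)) (fun c => μ ≤ ∑ a, c a + 1) := by
  have h1 := (comb_all K μ (Fin (K - 2)) _ (AP.true (Fin (K - 2)) (by simp; omega))).le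
    (by omega)
  refine h1.weak ?_
  rintro c ⟨hc, h2, -⟩
  rw [Fintype.card_fin] at h2
  have h3 : ∑ a, c a ≤ K - 2 := by
    have : ∑ a, c a ≤ ∑ _a : Fin (K - 2), 1 := Finset.sum_le_sum fun x _ => hc x
    simpa using this
  have h4 := dd_le (by omega) (K - 2) (∑ a, c a) (by omega) (by omega) h3 h2
  generalize ∑ a, c a = p at h3 h4
  have e1 : ((K - 2 : ℕ) : ℤ) = (K : ℤ) - 2 := by omega
  have e2 : (K : ℤ) = 2 * μ + 1 := by omega
  have h5 : dd K μ (K - 2) p = K * (2 * p - K + 2) := by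
    unfold dd
    rw [e1, e2]
    ring
  by_contra h6
  have h7 : (2 * (p : ℤ) - K + 2) ≤ -3 := by omega
  have h8 : (K : ℤ) * (2 * p - K + 2) ≤ K * (-3) :=
    mul_le_mul_of_nonneg_left h7 (by omega)
  rw [← h5] at h8
  omega

theorem _root_.Pool.Agent.Lib.MP_21a058_co.Split.Ach.exch {K μ : ℕ} {P S T R : Type} [Fintype P]
    [Fintype S] [Fintype T] [Fintype R] {F : ((P ⊕ S) ⊕ (T ⊕ R) → ℕ) → Prop}
    (h : Ach K μ ((P ⊕ S) ⊕ (T ⊕ R)) F) :
    Ach K μ ((P ⊕ T) ⊕ (S ⊕ R)) (fun c => F (Sum.elim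
        (Sum.elim (fun p => c (inl (inl p))) (fun s => c (inr (inl s))))
        (Sum.elim (fun t => c (inl (inr t))) (fun r => c (inr (inr r)))))) := by
  refine (h.equiv (Equiv.sumSumSumComm P S T R)).weak ?_
  intro c hc
  refine cast (congrArg F ?_) hc
  funext x
  rcases x with (x | x) | (x | x) <;> rfl

theorem _root_.Pool.Agent.Lib.MP_21a058_co.Split.Ach.swap {K μ : ℕ} {X Y : Type} [Fintype X]
    [Fintype Y] {F : (X ⊕ Y → ℕ) → Prop} (h : Ach K μ (X ⊕ Y) F) :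
    Ach K μ (Y ⊕ X) (fun c => F (Sum.elim (fun x => c (inr x)) (fun y => c (inl y)))) := by
  refine (h.equiv (Equiv.sumComm X Y)).weak ?_
  intro c hc
  refine cast (congrArg F ?_) hc
  funext x
  rcases x with x | x <;> rfl

theorem three_block {K μ : ℕ} (hμ : 1 ≤ μ) (hK : K = 2 * μ + 1) :
    Ach K μ ((Fin (K - 2) ⊕ Fin 2) ⊕ ((Unit ⊕ Fin (K - 3)) ⊕ (Unit ⊕ Unit)))
      (fun c => μ ≤ ∑ a, c (inl (inl a)) + 1 ∧
        μ ≤ ∑ a, c (inl (inl a)) + c (inr (inr (inl ()))) + c (inr (inl (inl ()))) ∧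
        μ ≤ ∑ q, c (inl (inr q)) + ∑ b, c (inr (inl (inr b))) + c (inr (inr (inr ())))) := by
  have hA : Ach K μ ((Fin (K - 2) ⊕ (Unit ⊕ Unit)) ⊕ Fin K)
      (fun c => μ ≤ ∑ a, c (inl (inl a)) + 1) :=
    (window_block hμ hK).to (fun a => inl (inl a)) (inl_injective.comp inl_injective)
      (by simp; omega)
  have hB : Ach K μ ((Fin 2 ⊕ (Fin (K - 3) ⊕ Unit)) ⊕ Fin K) (fun _ => True) :=
    Ach.base _ (by simp; omega)
  have h := hA.node2 (by omega) (by simp; omega) (by simp; omega) (by simp) hB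
  let g : (Fin (K - 2) ⊕ (Unit ⊕ Unit)) ⊕ (Fin 2 ⊕ (Fin (K - 3) ⊕ Unit)) →
      (Fin (K - 2) ⊕ Fin 2) ⊕ ((Unit ⊕ Fin (K - 3)) ⊕ (Unit ⊕ Unit)) :=
    Sum.elim (Sum.elim (fun a => inl (inl a))
        (Sum.elim (fun _ => inr (inr (inl ()))) (fun _ => inr (inl (inl ())))))
      (Sum.elim (fun q => inl (inr q))
        (Sum.elim (fun b => inr (inl (inr b))) (fun _ => inr (inr (inr ())))))
  let g' : (Fin (K - 2) ⊕ Fin 2) ⊕ ((Unit ⊕ Fin (K - 3)) ⊕ (Unit ⊕ Unit)) →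
      (Fin (K - 2) ⊕ (Unit ⊕ Unit)) ⊕ (Fin 2 ⊕ (Fin (K - 3) ⊕ Unit)) :=
    Sum.elim (Sum.elim (fun a => inl (inl a)) (fun q => inr (inl q)))
      (Sum.elim (Sum.elim (fun _ => inl (inr (inr ()))) (fun b => inr (inr (inl b))))
        (Sum.elim (fun _ => inl (inr (inl ()))) (fun _ => inr (inr (inr ())))))
  have hl : Function.LeftInverse g' g := by
    rintro ((a | a | a) | (a | a | a)) <;> rfl
  refine (h.bij g hl.injective (by simp; omega)).weak ?_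
  rintro c ⟨n, -, -, hX, hY, -, -, -, -, h5, -⟩
  simp only [Fintype.sum_sum_type, g, Sum.elim_inl, Sum.elim_inr, sum_unit] at hX hY h5 ⊢
  refine ⟨by omega, by omega, by omega⟩

theorem mid_block {K μ : ℕ} (hμ : 1 ≤ μ) (hK : K = 2 * μ + 1) :
    Ach K μ ((Fin (K - 2) ⊕ (Unit ⊕ Unit)) ⊕ (Fin (K - 2) ⊕ (Unit ⊕ Unit)))
      (fun c => μ ≤ ∑ a, c (inl (inl a)) + 1 ∧ μ ≤ ∑ a, c (inr (inl a)) + 1 ∧
        μ ≤ ∑ a, c (inl (inl a)) + c (inl (inr (inr ()))) + c (inr (inr (inr ()))) ∧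
        μ ≤ ∑ a, c (inr (inl a)) + c (inl (inr (inl ()))) + c (inr (inr (inl ())))) := by
  have hA : Ach K μ ((Fin (K - 2) ⊕ (Unit ⊕ Unit)) ⊕ Fin K)
      (fun c => μ ≤ ∑ a, c (inl (inl a)) + 1) :=
    (window_block hμ hK).to (fun a => inl (inl a)) (inl_injective.comp inl_injective)
      (by simp; omega)
  have h := hA.node2 (by omega) (by simp; omega) (by simp; omega) (by simp) hA
  let g : (Fin (K - 2) ⊕ (Unit ⊕ Unit)) ⊕ (Fin (K - 2) ⊕ (Unit ⊕ Unit)) →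
      (Fin (K - 2) ⊕ (Unit ⊕ Unit)) ⊕ (Fin (K - 2) ⊕ (Unit ⊕ Unit)) :=
    Sum.elim (Sum.elim (fun a => inl (inl a))
        (Sum.elim (fun _ => inl (inr (inr ()))) (fun _ => inr (inr (inr ())))))
      (Sum.elim (fun a => inr (inl a))
        (Sum.elim (fun _ => inl (inr (inl ()))) (fun _ => inr (inr (inl ())))))
  let g' : (Fin (K - 2) ⊕ (Unit ⊕ Unit)) ⊕ (Fin (K - 2) ⊕ (Unit ⊕ Unit)) →
      (Fin (K - 2) ⊕ (Unit ⊕ Unit)) ⊕ (Fin (K - 2) ⊕ (Unit ⊕ Unit)) :=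
    Sum.elim (Sum.elim (fun a => inl (inl a))
        (Sum.elim (fun _ => inr (inr (inl ()))) (fun _ => inl (inr (inl ())))))
      (Sum.elim (fun a => inr (inl a))
        (Sum.elim (fun _ => inr (inr (inr ()))) (fun _ => inl (inr (inr ())))))
  have hl : Function.LeftInverse g' g := by
    rintro ((a | a | a) | (a | a | a)) <;> rfl
  refine (h.bij g hl.injective rfl).weak ?_
  rintro c ⟨n, -, -, hX, hY, -, -, -, -, h5, h6⟩
  simp only [Fintype.sum_sum_type, g, Sum.elim_inl, Sum.elim_inr, sum_unit] at hX hY h5 h6 ⊢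
  refine ⟨by omega, by omega, by omega, by omega⟩

theorem exc {K μ : ℕ} (hμ : 1 ≤ μ) (hK : K = 2 * μ + 1) : W K μ 2 2 := by
  intro P iP hP R' hR
  -- the last vertex of the chain and what follows it
  have hc4 : Ach K μ ((P ⊕ Fin (K - 2)) ⊕ Fin K) (fun c => R' (fun p => c (inl (inl p)))) :=
    hR.to (fun p => inl (inl p)) (inl_injective.comp inl_injective) (by simp [hP]; omega)
  have hb4 : Ach K μ ((Fin (K - 2) ⊕ Fin 2) ⊕ Fin K) (fun _ => True) :=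
    Ach.base _ (by simp; omega)
  have t4 := hc4.node2 (by omega) (by simp [hP]; omega) (by simp; omega) (by simp) hb4
  have t4' : Ach K μ ((P ⊕ Fin (K - 2)) ⊕ (Fin (K - 2) ⊕ Fin 2)) (fun c =>
      ∑ p, c (inl (inl p)) + ∑ a, c (inl (inr a)) ≤ μ + 1 ∧
      μ ≤ ∑ a, c (inr (inl a)) + ∑ q, c (inr (inr q)) ∧
      ∑ p, c (inl (inl p)) + ∑ a, c (inl (inr a)) +
        (∑ a, c (inr (inl a)) + ∑ q, c (inr (inr q))) ≤ 2 * μ + 1 ∧
      R' (fun p => c (inl (inl p)))) := by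
    refine t4.weak ?_
    rintro c ⟨n, -, -, hX, hY, -, h3, -, -, h5, -⟩
    simp only [Fintype.sum_sum_type] at hX hY h3
    exact ⟨hX.2, hY.1, h3, h5⟩
  -- node 3
  have t3 := t4'.exch.node2 (by omega) (by simp [hP]; omega) (by simp; omega) (by simp; omega)
    (three_block hμ hK).swap
  have t3' : Ach K μ ((P ⊕ Fin (K - 2)) ⊕ ((Unit ⊕ Fin (K - 3)) ⊕ (Unit ⊕ Unit))) (fun c =>
      (∑ p, c (inl (inl p)) = 2 →
        (2 + ∑ a, c (inl (inr a)) ≤ μ + 1) ∧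
        (μ ≤ ∑ a, c (inl (inr a)) + 1 →
          c (inr (inr (inl ()))) + c (inr (inl (inl ()))) = 1 ∧
          c (inr (inl (inl ()))) + ∑ b, c (inr (inl (inr b))) +
            (c (inr (inr (inl ()))) + c (inr (inr (inr ())))) = μ)) ∧
      R' (fun p => c (inl (inl p)))) := by
    refine t3.weak ?_
    rintro c ⟨n, -, -, hX, hY, hN, h1, h2, h3, ⟨h4, h5, h6, h7⟩, h8, h9, h10⟩
    simp only [Fintype.sum_sum_type, Sum.elim_inl, Sum.elim_inr, sum_unit] at hX hY hN h1 h2 h3 h4 h5 h6 h7 h8 h9 h10 ⊢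
    exact ⟨fun hp => ⟨by omega, fun he => ⟨by omega, by omega⟩⟩, h7⟩
  -- node 2
  have t2 := t3'.exch.node2 (by omega) (by simp [hP]; omega) (by simp; omega) (by simp; omega)
    (mid_block hμ hK)
  have t2' : Ach K μ ((P ⊕ (Unit ⊕ Fin (K - 3))) ⊕ (Fin (K - 2) ⊕ (Unit ⊕ Unit))) (fun c =>
      (∑ p, c (inl (inl p)) = 2 →
        μ ≤ ∑ a, c (inr (inl a)) + 1 ∧
        (∑ a, c (inr (inl a)) + 1 = μ →
          c (inl (inr (inl ()))) + ∑ b, c (inl (inr (inr b))) +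
            (c (inr (inr (inl ()))) + c (inr (inr (inr ())))) = μ →
          c (inr (inr (inl ()))) + c (inl (inr (inl ()))) = 1 → False)) ∧
      R' (fun p => c (inl (inl p)))) := by
    refine t2.weak ?_
    rintro c ⟨n, -, -, hX, hY, hN, h1, h2, h3, ⟨h4, h7⟩, h8, h9, h10, h11⟩
    simp only [Fintype.sum_sum_type, Sum.elim_inl, Sum.elim_inr, sum_unit] at hX hY hN h1 h2 h3 h4 h7 h8 h9 h10 h11 ⊢
    refine ⟨fun hp => ?_, h7⟩
    obtain ⟨k1, k2⟩ := h4 hp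
    obtain ⟨k3, k4⟩ := k2 h9
    exact ⟨h8, fun a1 a2 a3 => by omega⟩
  -- node 1
  have t1 := t2'.exch.node2 (by omega) (by simp [hP]; omega) (by simp; omega) (by simp; omega)
    (three_block hμ hK)
  have t1' : Ach K μ ((P ⊕ Fin (K - 2)) ⊕ (Fin (K - 2) ⊕ Fin 2)) (fun c =>
      (∑ p, c (inl (inl p)) = 2 → μ ≤ ∑ a, c (inr (inl a))) ∧
      R' (fun p => c (inl (inl p)))) := by
    refine t1.weak ?_
    rintro c ⟨n, -, -, hX, hY, hN, h1, h2, h3, ⟨h4, h7⟩, h8, h9, h10⟩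
    simp only [Fintype.sum_sum_type, Sum.elim_inl, Sum.elim_inr, sum_unit] at hX hY hN h1 h2 h3 h4 h7 h8 h9 h10 ⊢
    refine ⟨fun hp => ?_, h7⟩
    obtain ⟨k1, k2⟩ := h4 hp
    by_contra hcon
    exact k2 (by omega) (by omega) (by omega)
  -- node 0
  have hb0 : Ach K μ (Fin K ⊕ (Fin (K - 2) ⊕ Fin 2)) (fun _ => True) :=
    Ach.base _ (by simp; omega)
  have t0 := t1'.exch.node2 (by omega) (by simp [hP]; omega) (by simp) (by simp; omega) hb0
  refine ⟨(P ⊕ Fin (K - 2)) ⊕ Fin K, inferInstance, fun p => inl (inl p),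
    inl_injective.comp inl_injective, by simp [hP]; omega, t0.weak ?_⟩
  rintro c ⟨n, -, -, hX, hY, hN, h1, h2, h3, ⟨h4, h7⟩, -⟩
  simp only [Fintype.sum_sum_type, Sum.elim_inl, Sum.elim_inr] at hX hY hN h1 h2 h3 h4 h7 ⊢
  refine ⟨fun hp => ?_, h7⟩
  have := h4 hp
  omega

end Pool.Agent.Lib.MP_21a058_co.Split
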