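import Pool.Agent.Lib.MP_21a058_co.Split.Alive

/-! The meeting rule and what follows from it for the numbers of red edges. -/

set_option autoImplicit false

namespace Pool.Agent.Lib.MP_21a058_co.Split

/-- Meeting rule. -/
theorem meet {K μ m p : ℕ} (hK : 1 ≤ K) (i j : ℕ) (hm : m ≤ K) (hi : i ≤ K) (hj : j ≤ K)
    (h : ¬ W K μ m p) : ∃ a a' : ℕ, a ≤ i ∧ a' ≤ j ∧ ¬ W K μ (m + i) (p + a) ∧
      ¬ W K μ (m + j) (p + a') ∧ ¬ W K μ (i + j) (a + a') := by
  classical
  by_contra hcon
  apply h
  intro P iP hP R' hR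
  have c1 : Fintype.card (P ⊕ Fin i) ≤ 2 * K := by simp [hP]; omega
  have c2 : Fintype.card (Fin j ⊕ Fin i) ≤ 2 * K := by simp; omega
  have h1 := comb_all K μ (P ⊕ Fin i) _ (hR.restrict (Sum.inl : P → P ⊕ Fin i)
    Sum.inl_injective c1)
  have h2 := comb_all K μ (Fin j ⊕ Fin i) _ (AP.true (Fin j ⊕ Fin i) c2)
  have h3 := AP.node (X := P) (Y := Fin j) (N := Fin i) (by omega) (by simp; omega)
    (by simp; omega) (h1.le hK) h2
  have h4 := (comb_all K μ (P ⊕ Fin j) _ h3).le hK
  have h5 := AP.node (X := P) (Y := Empty) (N := Fin j) (by omega) (by simp) (by simp; omega)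
    h4 (AP.true _ (by simp; omega))
  refine (AP.sub (R := fun c => ∑ x, c x ≠ p ∧ R' c) (Sum.inl : P → P ⊕ Empty)
    Sum.inl_injective (h5.weak ?_))
  rintro c ⟨n', ⟨b1, b2, n, ⟨b3, b4, b5⟩, b6, -⟩, -⟩
  refine ⟨fun hp => hcon ?_, b5⟩
  refine ⟨∑ x, n x, ∑ x, n' x, ?_, ?_, ?_, ?_, ?_⟩
  · have : ∑ x, n x ≤ ∑ _x : Fin i, 1 := Finset.sum_le_sum fun x _ => b3 (Sum.inr x)
    simpa using this
  · have : ∑ x, n' x ≤ ∑ _x : Fin j, 1 := Finset.sum_le_sum fun x _ => b1 (Sum.inr x)
    simpa using this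
  · simp only [Fintype.sum_sum_type, Sum.elim_inl, Sum.elim_inr, Fintype.card_sum, hP,
      Fintype.card_fin] at b4
    rwa [hp] at b4
  · simp only [Fintype.sum_sum_type, Sum.elim_inl, Sum.elim_inr, Fintype.card_sum, hP,
      Fintype.card_fin] at b2
    rwa [hp] at b2
  · simp only [Fintype.sum_sum_type, Sum.elim_inl, Sum.elim_inr, Fintype.card_sum,
      Fintype.card_fin] at b6
    rwa [add_comm i j, add_comm (∑ x, n x)]

theorem window {K μ m p : ℕ} (hK : 1 ≤ K) (hm : m ≤ K) (h : ¬ W K μ m p) :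
    p ≤ μ + 1 ∧ m + μ ≤ p + K := by
  by_contra hcon
  apply h
  intro P iP hP R' hR
  refine (Comb.window hK P (by omega) R' hR).weak ?_
  rintro c ⟨h1, h2⟩
  refine ⟨fun h3 => hcon ?_, h2⟩
  rw [h3, hP] at h1
  exact h1

/-- The discrepancy. -/
def dd (K μ m p : ℕ) : ℤ := 2 * K * p - (2 * μ + 1) * m

theorem dd_add (K μ m i p a : ℕ) : dd K μ (m + i) (p + a) = dd K μ m p + dd K μ i a := by
  unfold dd
  push_cast
  ring

theorem dd_full {K μ p : ℕ} (hK : 1 ≤ K) (h : ¬ W K μ K p) :
    dd K μ K p = K ∨ dd K μ K p = -K := by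
  have h1 := window hK le_rfl h
  have h2 : p = μ ∨ p = μ + 1 := by omega
  unfold dd
  rcases h2 with rfl | rfl
  · right; ring
  · left; push_cast; ring

theorem dd_le {K μ : ℕ} (hK : 1 ≤ K) : ∀ m p : ℕ, 1 ≤ m → m ≤ K → p ≤ m → ¬ W K μ m p →
    (dd K μ m p).natAbs ≤ 2 * K := by
  classical
  let T : Finset (ℕ × ℕ) := (Finset.range (K + 1) ×ˢ Finset.range (K + 1)).filter
    (fun x => 1 ≤ x.1 ∧ x.2 ≤ x.1 ∧ ¬ W K μ x.1 x.2)
  have hT : ∀ m p, (m, p) ∈ T ↔ (1 ≤ m ∧ m ≤ K ∧ p ≤ m ∧ ¬ W K μ m p) := by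
    intro m p
    simp only [T, Finset.mem_filter, Finset.mem_product, Finset.mem_range]
    constructor
    · rintro ⟨⟨h1, h2⟩, h3, h4, h5⟩
      exact ⟨h3, by omega, h4, h5⟩
    · rintro ⟨h1, h2, h3, h4⟩
      exact ⟨⟨by omega, by omega⟩, h1, h3, h4⟩
  intro m0 p0 h1 h2 h3 h4
  have hne : T.Nonempty := ⟨(m0, p0), (hT _ _).2 ⟨h1, h2, h3, h4⟩⟩
  obtain ⟨⟨m, p⟩, hmem, hmax⟩ := T.exists_max_image (fun x => (dd K μ x.1 x.2).natAbs) hne
  have hle : (dd K μ m0 p0).natAbs ≤ (dd K μ m p).natAbs :=
    hmax (m0, p0) ((hT _ _).2 ⟨h1, h2, h3, h4⟩)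
  refine hle.trans ?_
  obtain ⟨g1, g2, g3, g4⟩ := (hT _ _).1 hmem
  rcases Nat.lt_or_ge K (2 * m) with hc | hc
  · obtain ⟨a, a', ha, ha', k1, k2, k3⟩ := meet hK (K - m) (K - m) g2 (by omega) (by omega) g4
    have e1 := dd_add K μ m (K - m) p a
    have e2 := dd_add K μ m (K - m) p a'
    have e3 := dd_add K μ (K - m) (K - m) a a'
    have e4 : m + (K - m) = K := by omega
    rw [e4] at e1 e2 k1 k2
    have f1 := dd_full hK k1
    have f2 := dd_full hK k2
    rcases Nat.lt_or_ge m K with hlt | hge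
    · have f3 := hmax (K - m + (K - m), a + a')
        ((hT _ _).2 ⟨by omega, by omega, by omega, k3⟩)
      simp only at f3
      omega
    · have e5 : K - m = 0 := by omega
      rw [e5] at ha ha'
      have e6 : a = 0 := by omega
      have e7 : a' = 0 := by omega
      rw [e5, e6, e7] at e3
      have e8 : dd K μ (0 + 0) (0 + 0) = 0 := by simp [dd]
      rw [e5, e6] at e1
      rw [e5, e7] at e2
      rw [e6] at f1
      rw [e7] at f2
      omega
  · obtain ⟨a, a', ha, ha', k1, k2, k3⟩ := meet hK (K - m) m g2 (by omega) (by omega) g4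
    have e1 := dd_add K μ m (K - m) p a
    have e2 := dd_add K μ m m p a'
    have e3 := dd_add K μ (K - m) m a a'
    have e4 : m + (K - m) = K := by omega
    have e5 : K - m + m = K := by omega
    rw [e4] at e1 k1
    rw [e5] at e3 k3
    have f1 := dd_full hK k1
    have f2 := dd_full hK k3
    have f3 := hmax (m + m, p + a') ((hT _ _).2 ⟨by omega, by omega, by omega, k2⟩)
    simp only at f3
    omega

/-- If a red pair is refutable then everything is. -/
theorem red_pair {K μ : ℕ} (hK : 2 ≤ K) (hμ : 1 ≤ μ) (h : W K μ 2 2) : W K μ 0 0 := by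
  have key : ∀ n m : ℕ, m + n = K → 1 ≤ m → W K μ m 0 := by
    intro n
    induction n with
    | zero =>
      intro m h1 h2
      by_contra h3
      have := window (by omega) (by omega) h3
      omega
    | succ n ih =>
      intro m h1 h2
      by_contra h3
      obtain ⟨a, a', ha, ha', k1, k2, k3⟩ := meet (by omega) 1 1 (by omega) (by omega)
        (by omega) h3
      have w1 := ih (m + 1) (by omega) (by omega)
      have e1 : a = 1 := by
        rcases Nat.lt_or_ge a 1 with h4 | h4
        · have h5 : 0 + a = 0 := by omega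
          rw [h5] at k1
          exact absurd w1 k1
        · omega
      have e2 : a' = 1 := by
        rcases Nat.lt_or_ge a' 1 with h4 | h4
        · have h5 : 0 + a' = 0 := by omega
          rw [h5] at k2
          exact absurd w1 k2
        · omega
      rw [e1, e2] at k3
      exact k3 h
  have w20 : W K μ 2 0 := key (K - 2) 2 (by omega) (by omega)
  have w10 : W K μ 1 0 := key (K - 1) 1 (by omega) (by omega)
  have w11 : W K μ 1 1 := by
    by_contra h3
    obtain ⟨a, a', ha, ha', k1, k2, k3⟩ := meet (by omega) 1 1 (by omega) (by omega)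
      (by omega) h3
    have e1 : a = 0 := by
      rcases Nat.lt_or_ge a 1 with h4 | h4
      · omega
      · have h5 : a = 1 := by omega
        rw [h5] at k1
        exact absurd h k1
    have e2 : a' = 0 := by
      rcases Nat.lt_or_ge a' 1 with h4 | h4
      · omega
      · have h5 : a' = 1 := by omega
        rw [h5] at k2
        exact absurd h k2
    rw [e1, e2] at k3
    exact k3 w20
  by_contra h3
  obtain ⟨a, a', ha, ha', k1, k2, k3⟩ := meet (by omega) 1 0 (by omega) (by omega)
    (by omega) h3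
  rw [zero_add, zero_add] at k1
  have h4 : a = 0 ∨ a = 1 := by omega
  rcases h4 with rfl | rfl
  · exact k1 w10
  · exact k1 w11

/-- If a blue pair is refutable then everything is. -/
theorem blue_pair {K μ : ℕ} (hK : μ + 2 ≤ K) (h : W K μ 2 0) : W K μ 0 0 := by
  have key : ∀ n m : ℕ, m + n = K → 1 ≤ m → W K μ m m := by
    intro n
    induction n with
    | zero =>
      intro m h1 h2
      by_contra h3
      have := window (by omega) (by omega) h3
      omega
    | succ n ih =>
      intro m h1 h2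
      by_contra h3
      obtain ⟨a, a', ha, ha', k1, k2, k3⟩ := meet (by omega) 1 1 (by omega) (by omega)
        (by omega) h3
      have w1 := ih (m + 1) (by omega) (by omega)
      have e1 : a = 0 := by
        rcases Nat.lt_or_ge a 1 with h4 | h4
        · omega
        · have h5 : a = 1 := by omega
          rw [h5] at k1
          exact absurd w1 k1
      have e2 : a' = 0 := by
        rcases Nat.lt_or_ge a' 1 with h4 | h4
        · omega
        · have h5 : a' = 1 := by omega
          rw [h5] at k2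
          exact absurd w1 k2
      rw [e1, e2] at k3
      exact k3 h
  have w22 : W K μ 2 2 := key (K - 2) 2 (by omega) (by omega)
  have w11 : W K μ 1 1 := key (K - 1) 1 (by omega) (by omega)
  have w10 : W K μ 1 0 := by
    by_contra h3
    obtain ⟨a, a', ha, ha', k1, k2, k3⟩ := meet (by omega) 1 1 (by omega) (by omega)
      (by omega) h3
    have e1 : a = 1 := by
      rcases Nat.lt_or_ge a 1 with h4 | h4
      · have h5 : 0 + a = 0 := by omega
        rw [h5] at k1
        exact absurd h k1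
      · omega
    have e2 : a' = 1 := by
      rcases Nat.lt_or_ge a' 1 with h4 | h4
      · have h5 : 0 + a' = 0 := by omega
        rw [h5] at k2
        exact absurd h k2
      · omega
    rw [e1, e2] at k3
    exact k3 w22
  by_contra h3
  obtain ⟨a, a', ha, ha', k1, k2, k3⟩ := meet (by omega) 1 0 (by omega) (by omega)
    (by omega) h3
  rw [zero_add, zero_add] at k1
  have h4 : a = 0 ∨ a = 1 := by omega
  rcases h4 with rfl | rfl
  · exact k1 w10
  · exact k1 w11

end Pool.Agent.Lib.MP_21a058_co.Split
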